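import Pool.Agent.helper86.NF.SpecC

/-!
# Project nf: NPW, choice of the power
-/

set_option autoImplicit false

open Complex MeasureTheory

namespace Pool.Agent.NF

open Pool.Agent.helper84.DM Pool.Agent.helper78.ED Pool.Agent.DH Pool.Agent.ZD

lemma NPW_log (L l δ β : ℝ) (k₀ : ℕ) (hδ : 0 < δ) (hL : 0 < L) (hβ1 : 1 ≤ β)
    (hβ2 : β ≤ 9 / 8) (hk₀ : 1 ≤ k₀) (h1 : δ / 2 * L ≤ l) (h2 : l ≤ β / k₀ * L) :
    ∃ k : ℕ, k₀ ≤ k ∧ (k : ℝ) ≤ 3 / δ ∧ β * (k₀ / (k₀ + 1)) * L ≤ k * l ∧ k * l ≤ β * L := by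
  have hl : 0 < l := lt_of_lt_of_le (by positivity) h1
  have hβ : 0 < β := by linarith
  have hk0 : (0 : ℝ) < k₀ := by exact_mod_cast hk₀
  have hle : (k₀ : ℝ) ≤ β * L / l := by
    rw [le_div_iff₀ hl]
    calc (k₀ : ℝ) * l ≤ k₀ * (β / k₀ * L) := mul_le_mul_of_nonneg_left h2 hk0.le
      _ = β * L := by field_simp
  have hk1 : k₀ ≤ ⌊β * L / l⌋₊ := Nat.le_floor hle
  have hm1 : ((⌊β * L / l⌋₊ : ℕ) : ℝ) ≤ β * L / l := Nat.floor_le (by positivity)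
  have hm2 : β * L / l < (⌊β * L / l⌋₊ : ℕ) + 1 := Nat.lt_floor_add_one _
  generalize ⌊β * L / l⌋₊ = m at hm1 hm2 hk1
  have hm1' : (m : ℝ) * l ≤ β * L := by rwa [le_div_iff₀ hl] at hm1
  have hm2' : β * L < ((m : ℝ) + 1) * l := by rwa [div_lt_iff₀ hl] at hm2
  have hk1' : (k₀ : ℝ) ≤ m := by exact_mod_cast hk1
  refine ⟨m, hk1, ?_, ?_, hm1'⟩
  · refine hm1.trans ?_
    rw [div_le_div_iff₀ hl hδ]
    have h3 : β * L * δ ≤ 9 / 8 * (L * δ) := by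
      calc β * L * δ = β * (L * δ) := by ring
        _ ≤ 9 / 8 * (L * δ) := mul_le_mul_of_nonneg_right hβ2 (by positivity)
    have h4 : 0 < L * δ := by positivity
    linarith
  · have hr : (k₀ : ℝ) / (k₀ + 1) ≤ m / (m + 1) := by
      rw [div_le_div_iff₀ (by positivity) (by positivity)]
      nlinarith
    have hr0 : (0 : ℝ) ≤ m / (m + 1) := by positivity
    calc β * (k₀ / (k₀ + 1)) * L = (k₀ : ℝ) / (k₀ + 1) * (β * L) := by ring
      _ ≤ m / (m + 1) * (β * L) := mul_le_mul_of_nonneg_right hr (by positivity)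
      _ ≤ m / (m + 1) * (((m : ℝ) + 1) * l) := mul_le_mul_of_nonneg_left hm2'.le hr0
      _ = m * l := by field_simp

theorem NPW : NPW_stmt := by
  intro δ hδ hδ1
  refine ⟨(16 : ℝ) ^ (1 / δ), fun T hT N k₀ β hk₀ hβ1 hβ2 hN1 hN2 => ?_⟩
  have h1T : (1 : ℝ) < (16 : ℝ) ^ (1 / δ) := Real.one_lt_rpow (by norm_num) (by positivity)
  have hT1 : 1 < T := lt_of_lt_of_le h1T hT
  have hT0 : 0 < T := by linarith
  have hTδ : 16 ≤ T ^ δ := by
    calc (16 : ℝ) = ((16 : ℝ) ^ (1 / δ)) ^ δ := by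
          rw [← Real.rpow_mul (by norm_num), one_div_mul_cancel hδ.ne', Real.rpow_one]
      _ ≤ T ^ δ := Real.rpow_le_rpow (by positivity) hT hδ.le
  have hN0 : (0 : ℝ) < N := by linarith
  have hsq : T ^ (δ / 2) * T ^ (δ / 2) = T ^ δ := by
    rw [← Real.rpow_add hT0]; congr 1; ring
  have hpos : 0 < T ^ (δ / 2) := Real.rpow_pos_of_pos hT0 _
  have h4 : 2 ≤ T ^ (δ / 2) := by nlinarith
  have hN3 : T ^ (δ / 2) ≤ N := by nlinarith
  have hL : 0 < Real.log T := Real.log_pos hT1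
  have hl1 : δ / 2 * Real.log T ≤ Real.log N := by
    rw [← Real.log_rpow hT0]
    exact Real.log_le_log hpos hN3
  have hl2 : Real.log N ≤ β / k₀ * Real.log T := by
    rw [← Real.log_rpow hT0]
    exact Real.log_le_log hN0 hN2
  obtain ⟨k, hk1, hk2, hk3, hk4⟩ := NPW_log _ _ δ β k₀ hδ hL hβ1 hβ2 hk₀ hl1 hl2
  have hNk : (0 : ℝ) < (N : ℝ) ^ k := pow_pos hN0 k
  refine ⟨k, hk1, hk2, ?_, ?_⟩
  · rw [← Real.log_le_log_iff (Real.rpow_pos_of_pos hT0 _) hNk, Real.log_rpow hT0, Real.log_pow]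
    exact hk3
  · rw [← Real.log_le_log_iff hNk (Real.rpow_pos_of_pos hT0 _), Real.log_rpow hT0, Real.log_pow]
    exact hk4

end Pool.Agent.NF
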