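import Pool.Agent.helper4.NF.SpecB
import Pool.Agent.helper59.DM.DV

/-!
# Project nf: YB, the bound (b), by duality
-/

set_option autoImplicit false

open Complex MeasureTheory

namespace Pool.Agent.NF

open Pool.Agent.helper84.DM Pool.Agent.helper78.ED Pool.Agent.DH Pool.Agent.ZD

/-- Schur test -/
theorem YB_schur {J : Type} (js : Finset J) (a : J → ℝ) (E : J → J → ℝ)
    (hE : ∀ i j, 0 ≤ E i j) (hs : ∀ i j, E i j = E j i) :
    ∑ i ∈ js, ∑ j ∈ js, a i * a j * E i j ≤ ∑ i ∈ js, a i ^ 2 * ∑ j ∈ js, E i j := by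
  have h1 : ∑ i ∈ js, ∑ j ∈ js, a i * a j * E i j ≤
      ∑ i ∈ js, ∑ j ∈ js, (a i ^ 2 / 2 * E i j + a j ^ 2 / 2 * E i j) := by
    refine Finset.sum_le_sum fun i _ => Finset.sum_le_sum fun j _ => ?_
    have h2 : a i * a j ≤ a i ^ 2 / 2 + a j ^ 2 / 2 := by nlinarith [sq_nonneg (a i - a j)]
    calc a i * a j * E i j ≤ (a i ^ 2 / 2 + a j ^ 2 / 2) * E i j :=
          mul_le_mul_of_nonneg_right h2 (hE i j)
      _ = _ := by ring
  refine h1.trans (le_of_eq ?_)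
  have h3 : ∑ i ∈ js, ∑ j ∈ js, a j ^ 2 / 2 * E i j = ∑ i ∈ js, ∑ j ∈ js, a i ^ 2 / 2 * E i j := by
    rw [Finset.sum_comm]
    refine Finset.sum_congr rfl fun i _ => Finset.sum_congr rfl fun j _ => ?_
    rw [hs j i]
  simp only [Finset.sum_add_distrib]
  rw [h3, ← Finset.sum_add_distrib]
  refine Finset.sum_congr rfl fun i _ => ?_
  rw [← Finset.sum_add_distrib, Finset.mul_sum]
  refine Finset.sum_congr rfl fun j _ => ?_
  ring

/-- the frequencies are bounded -/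
theorem YB_freq (N i : ℕ) (hN : 1 ≤ N) (n : ℕ) (hn : n ∈ Finset.Ioc N (4 * N)) (r : ℕ × ℕ)
    (hr : r ∈ RF N i) : |Real.log r.1 - Real.log r.2 - Real.log n| ≤ 8 := by
  rw [RF, Finset.mem_filter, Finset.mem_product, Finset.mem_Icc, Finset.mem_Ico] at hr
  obtain ⟨⟨⟨h1, -⟩, h2, -⟩, -, h3, h4⟩ := hr
  rw [Finset.mem_Ioc] at hn
  have hN0 : (0 : ℝ) < N := by exact_mod_cast hN
  have hp : (0 : ℝ) < r.1 := by exact_mod_cast h1
  have hq : (0 : ℝ) < r.2 := by
    have : 0 < r.2 := lt_of_lt_of_le (by positivity) h2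
    exact_mod_cast this
  have hn0 : (0 : ℝ) < n := by
    have : 0 < n := by omega
    exact_mod_cast this
  have h3' : (N : ℝ) * r.2 ≤ 400 * r.1 := by exact_mod_cast h3
  have h4' : (r.1 : ℝ) ≤ 400 * N * r.2 := by exact_mod_cast h4
  have hn1 : (N : ℝ) ≤ n := by exact_mod_cast hn.1.le
  have hn2 : (n : ℝ) ≤ 4 * N := by exact_mod_cast hn.2
  have l1 : Real.log N + Real.log r.2 ≤ Real.log 400 + Real.log r.1 := by
    rw [← Real.log_mul hN0.ne' hq.ne', ← Real.log_mul (by norm_num) hp.ne']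
    exact Real.log_le_log (by positivity) h3'
  have l2 : Real.log r.1 ≤ Real.log 400 + Real.log N + Real.log r.2 := by
    rw [← Real.log_mul (by norm_num) hN0.ne', ← Real.log_mul (by positivity) hq.ne']
    exact Real.log_le_log hp h4'
  have l3 : Real.log N ≤ Real.log n := Real.log_le_log hN0 hn1
  have l4 : Real.log n ≤ Real.log 4 + Real.log N := by
    rw [← Real.log_mul (by norm_num) hN0.ne']
    exact Real.log_le_log hn0 hn2
  have l2' : Real.log 2 < 0.6931471808 := Real.log_two_lt_d9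
  have l5 : Real.log 400 ≤ 9 * Real.log 2 := by
    have : Real.log (2 ^ 9) = 9 * Real.log 2 := by
      rw [Real.log_pow]
      norm_num
    rw [← this]
    exact Real.log_le_log (by norm_num) (by norm_num)
  have l6 : Real.log 4 = 2 * Real.log 2 := by
    have : Real.log (2 ^ 2) = 2 * Real.log 2 := by
      rw [Real.log_pow]
      norm_num
    rw [← this]
    norm_num
  rw [abs_le]
  constructor
  · linarith
  · linarith

/-- splitting the Gaussian -/
theorem YB_gauss (T δ x : ℝ) (hT : 1 ≤ T) :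
    Real.exp (-(T * x) ^ 2 / 4) ≤ (if |x| ≤ T ^ (δ - 1) then 1 else 0) +
      Real.exp (-(T ^ (2 * δ)) / 4) := by
  have hT0 : 0 < T := by linarith
  split_ifs with h
  · have h1 : Real.exp (-(T * x) ^ 2 / 4) ≤ 1 := by
      rw [← Real.exp_zero]
      refine Real.exp_le_exp.2 ?_
      have : 0 ≤ (T * x) ^ 2 := sq_nonneg _
      linarith
    linarith [Real.exp_pos (-(T ^ (2 * δ)) / 4)]
  · push Not at h
    rw [zero_add]
    refine Real.exp_le_exp.2 ?_
    have h1 : T ^ δ ≤ T * |x| := by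
      have h2 : T ^ δ = T * T ^ (δ - 1) := by
        rw [Real.rpow_sub_one hT0.ne']
        field_simp
      rw [h2]
      exact mul_le_mul_of_nonneg_left h.le hT0.le
    have h3 : T ^ (2 * δ) ≤ (T * x) ^ 2 := by
      have h4 : T ^ (2 * δ) = (T ^ δ) ^ 2 := by
        rw [← Real.rpow_natCast, ← Real.rpow_mul hT0.le]
        congr 1
        push_cast
        ring
      have h5 : (T * x) ^ 2 = (T * |x|) ^ 2 := by rw [mul_pow, mul_pow, sq_abs]
      rw [h4, h5]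
      exact pow_le_pow_left₀ (Real.rpow_nonneg hT0.le _) h1 2
    linarith

/-- the number of points -/
theorem YB_card (N i : ℕ) (T : ℝ) (hT : 1 ≤ T) (hN : (N : ℝ) ≤ T) (hi : (2 : ℝ) ^ i ≤ T ^ 2) :
    ((RF N i).card : ℝ) ≤ 800 * T ^ 5 := by
  have h1 : (RF N i).card ≤ 400 * N * 2 ^ (i + 1) * 2 ^ i := by
    unfold RF
    refine (Finset.card_filter_le _ _).trans ?_
    rw [Finset.card_product, Nat.card_Icc, Nat.card_Ico]
    have h2 : 2 ^ (i + 1) - 2 ^ i = 2 ^ i := by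
      rw [pow_succ]
      omega
    rw [h2]
    exact Nat.mul_le_mul_right _ (by omega)
  have h2 : ((RF N i).card : ℝ) ≤ 400 * N * 2 ^ (i + 1) * 2 ^ i := by exact_mod_cast h1
  refine h2.trans ?_
  have hN0 : (0 : ℝ) ≤ N := Nat.cast_nonneg _
  have h3 : (0 : ℝ) ≤ 2 ^ i := by positivity
  calc (400 : ℝ) * N * 2 ^ (i + 1) * 2 ^ i = 800 * (N * (2 ^ i * 2 ^ i)) := by ring
    _ ≤ 800 * (T * (T ^ 2 * T ^ 2)) := by
        gcongr
    _ = 800 * T ^ 5 := by ring

theorem YB (hCNT : CNT_stmt) (hBLS : BLS_stmt) (hEXA : EXA_stmt) : YB_stmt := by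
  intro ε δ hε hδ hδ1
  obtain ⟨C₁, hC₁, hCNT⟩ := hCNT
  obtain ⟨C₂, hC₂, hdiv⟩ := Pool.Agent.helper84.DM.divisor_bound (ε / 16) (by positivity)
  obtain ⟨x1, x2, x3, x4, -, x6, -⟩ := hEXA
  -- the threshold
  have hlim : Filter.Tendsto (fun T : ℝ => (T ^ (2 * δ)) ^ (7 / (2 * δ)) *
      Real.exp (-(1 / 4) * T ^ (2 * δ))) Filter.atTop (nhds 0) :=
    (tendsto_rpow_mul_exp_neg_mul_atTop_nhds_zero (7 / (2 * δ)) (1 / 4) (by norm_num)).comp
      (tendsto_rpow_atTop (by positivity))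
  have hev : ∀ᶠ T : ℝ in Filter.atTop, (T ^ (2 * δ)) ^ (7 / (2 * δ)) *
      Real.exp (-(1 / 4) * T ^ (2 * δ)) < 1 / 7200 :=
    hlim.eventually (gt_mem_nhds (by norm_num))
  obtain ⟨T₁, hT₁⟩ := Filter.eventually_atTop.1 hev
  set C₃ : ℝ := C₁ * (C₂ * (3200 : ℝ) ^ (ε / 16)) ^ 2 + 1 with hC₃
  have hC₃0 : 0 < C₃ := by positivity
  refine ⟨64 * 10 ^ 5 * C₃, max T₁ 1, by positivity, ?_⟩
  intro T hT W hW N i b θ hN hNT hiT hb
  have hT1 : 1 ≤ T := (le_max_right _ _).trans hT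
  have hT0 : 0 < T := by linarith
  have hN0 : (0 : ℝ) < N := by exact_mod_cast hN
  have hN1 : (1 : ℝ) ≤ N := by exact_mod_cast hN
  set η : ℝ := T ^ (δ - 1) with hη
  have hη0 : 0 < η := Real.rpow_pos_of_pos hT0 _
  have hη1 : η ≤ 1 := Real.rpow_le_one_of_one_le_of_nonpos hT1 (by linarith)
  -- the tail
  set e₀ : ℝ := Real.exp (-(T ^ (2 * δ)) / 4) with he₀
  have htail : 7200 * T ^ 7 * e₀ ≤ 1 := by
    have h1 := hT₁ T ((le_max_left _ _).trans hT)
    have h2 : (T ^ (2 * δ)) ^ (7 / (2 * δ)) = T ^ 7 := by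
      rw [← Real.rpow_mul hT0.le, ← Real.rpow_natCast]
      congr 1
      field_simp
      norm_num
    have h3 : Real.exp (-(1 / 4) * T ^ (2 * δ)) = e₀ := by
      rw [he₀]
      congr 1
      ring
    rw [h2, h3] at h1
    linarith
  -- the divisor bound
  set D : ℝ := C₂ * (3200 : ℝ) ^ (ε / 16) * T ^ (ε / 4) with hD
  have hDk : ∀ k : ℕ, 1 ≤ k → k ≤ 3200 * N ^ 2 * 2 ^ i → d k ≤ D := by
    intro k hk1 hk2
    refine (hdiv k hk1).trans ?_
    have h1 : (k : ℝ) ≤ 3200 * T ^ (4 : ℝ) := by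
      have h2 : (k : ℝ) ≤ 3200 * N ^ 2 * 2 ^ i := by exact_mod_cast hk2
      have h3 : T ^ (4 : ℝ) = T ^ 2 * T ^ 2 := by
        rw [show (4 : ℝ) = ((4 : ℕ) : ℝ) by norm_num, Real.rpow_natCast]
        ring
      rw [h3]
      calc (k : ℝ) ≤ 3200 * N ^ 2 * 2 ^ i := h2
        _ ≤ 3200 * T ^ 2 * T ^ 2 := by gcongr
        _ = _ := by ring
    calc C₂ * (k : ℝ) ^ (ε / 16) ≤ C₂ * (3200 * T ^ (4 : ℝ)) ^ (ε / 16) :=
          mul_le_mul_of_nonneg_left
            (Real.rpow_le_rpow (Nat.cast_nonneg _) h1 (by positivity)) hC₂.le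
      _ = D := by
          rw [Real.mul_rpow (by norm_num) (by positivity), ← Real.rpow_mul hT0.le, hD]
          rw [show (4 : ℝ) * (ε / 16) = ε / 4 by ring]
          ring
  -- the sums
  set F : ℕ × ℕ → ℂ := fun r =>
    ∑ t ∈ W, PP N b t * ex (t * (Real.log r.1 - Real.log r.2 + θ)) with hF
  set S : ℝ := ∑ r ∈ RF N i, ‖F r‖ ^ 2 with hS
  have hS0 : 0 ≤ S := Finset.sum_nonneg fun r _ => sq_nonneg _
  show S ≤ _
  set G : ℝ → ℂ := fun t => ∑ r ∈ RF N i, (starRingEnd ℂ) (F r) *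
    ex (t * (Real.log r.1 - Real.log r.2)) with hG
  have hSG : (S : ℂ) = ∑ t ∈ W, PP N b t * ex (t * θ) * G t := by
    have h1 : (S : ℂ) = ∑ r ∈ RF N i, (starRingEnd ℂ) (F r) * F r := by
      rw [hS]
      push_cast
      refine Finset.sum_congr rfl fun r _ => ?_
      rw [Complex.conj_mul']
    rw [h1]
    have h2 : ∀ r ∈ RF N i, (starRingEnd ℂ) (F r) * F r = ∑ t ∈ W,
        PP N b t * ex (t * θ) * ((starRingEnd ℂ) (F r) *
          ex (t * (Real.log r.1 - Real.log r.2))) := by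
      intro r _
      conv_lhs => rw [hF]
      beta_reduce
      rw [Finset.mul_sum]
      refine Finset.sum_congr rfl fun t _ => ?_
      rw [mul_add t, x2]
      ring
    rw [Finset.sum_congr rfl h2, Finset.sum_comm]
    refine Finset.sum_congr rfl fun t _ => ?_
    rw [hG]
    beta_reduce
    rw [Finset.mul_sum]
  have hS1 : S ≤ ∑ t ∈ W, ‖PP N b t * G t‖ := by
    calc S = ‖(S : ℂ)‖ := by rw [Complex.norm_real, Real.norm_of_nonneg hS0]
      _ ≤ ∑ t ∈ W, ‖PP N b t * ex (t * θ) * G t‖ := by rw [hSG]; exact norm_sum_le _ _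
      _ = ∑ t ∈ W, ‖PP N b t * G t‖ := by
          refine Finset.sum_congr rfl fun t _ => ?_
          rw [norm_mul, norm_mul, x1, mul_one, norm_mul]
  have hS2 : S ^ 2 ≤ (W.card : ℝ) * ∑ t ∈ W, ‖PP N b t * G t‖ ^ 2 :=
    (pow_le_pow_left₀ hS0 hS1 2).trans sq_sum_le_card_mul_sum_sq
  -- the large sieve
  set js : Finset (ℕ × (ℕ × ℕ)) := Finset.Ioc N (4 * N) ×ˢ RF N i with hjs
  set α : ℕ × (ℕ × ℕ) → ℂ := fun j => b j.1 * (starRingEnd ℂ) (F j.2) with hα
  set m : ℕ × (ℕ × ℕ) → ℝ := fun j => Real.log j.2.1 - Real.log j.2.2 - Real.log j.1 with hm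
  have hPG : ∀ t, PP N b t * G t = ∑ j ∈ js, α j * Complex.exp (((t * m j : ℝ) : ℂ) * I) := by
    intro t
    have h0 : 0 ∉ Finset.Ioc N (4 * N) := by
      rw [Finset.mem_Ioc]
      omega
    unfold PP
    rw [x6 _ b t h0, hG]
    beta_reduce
    rw [Finset.sum_mul_sum, hjs, Finset.sum_product]
    refine Finset.sum_congr rfl fun n _ => Finset.sum_congr rfl fun r _ => ?_
    have h2 : Complex.exp (((t * m (n, r) : ℝ) : ℂ) * I) =
        ex (-(t * Real.log n)) * ex (t * (Real.log r.1 - Real.log r.2)) := by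
      rw [← x2]
      show ex (t * (Real.log r.1 - Real.log r.2 - Real.log n)) = _
      congr 1
      ring
    rw [h2]
    show _ = b n * (starRingEnd ℂ) (F r) * _
    ring
  have hL := hBLS (ℕ × (ℕ × ℕ)) Unit js {()} (fun _ => α) m 8 T W hT1 (by norm_num) hW (by
    intro j hj
    rw [hjs, Finset.mem_product] at hj
    exact YB_freq N i hN j.1 hj.1 j.2 hj.2)
  rw [Finset.sum_singleton] at hL
  have hL2 : ∑ t ∈ W, ‖PP N b t * G t‖ ^ 2 ≤ 64 * 10 ^ 5 * T * ∑ j ∈ js, ∑ j' ∈ js,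
      ‖F j.2‖ * ‖F j'.2‖ * Real.exp (-(T * (m j - m j')) ^ 2 / 4) := by
    calc ∑ t ∈ W, ‖PP N b t * G t‖ ^ 2
        = ∑ t ∈ W, ‖∑ j ∈ js, α j * Complex.exp (((t * m j : ℝ) : ℂ) * I)‖ ^ 2 :=
          Finset.sum_congr rfl fun t _ => by rw [hPG t]
      _ ≤ _ := hL
      _ ≤ 10 ^ 5 * T * 8 ^ 2 * ∑ j ∈ js, ∑ j' ∈ js,
          ‖F j.2‖ * ‖F j'.2‖ * Real.exp (-(T * (m j - m j')) ^ 2 / 4) := by
          refine mul_le_mul_of_nonneg_left ?_ (by positivity)
          refine Finset.sum_le_sum fun j hj => Finset.sum_le_sum fun j' hj' => ?_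
          refine mul_le_mul_of_nonneg_right ?_ (Real.exp_pos _).le
          rw [Finset.sum_singleton, norm_mul, Complex.norm_conj]
          rw [hjs, Finset.mem_product] at hj hj'
          have g1 : ∀ j : ℕ × (ℕ × ℕ), j.1 ∈ Finset.Ioc N (4 * N) → ‖α j‖ ≤ ‖F j.2‖ := by
            intro j hj
            show ‖b j.1 * (starRingEnd ℂ) (F j.2)‖ ≤ _
            rw [norm_mul, Complex.norm_conj]
            calc ‖b j.1‖ * ‖F j.2‖ ≤ 1 * ‖F j.2‖ :=
                  mul_le_mul_of_nonneg_right (hb _ hj) (norm_nonneg _)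
              _ = _ := one_mul _
          exact mul_le_mul (g1 j hj.1) (g1 j' hj'.1) (norm_nonneg _) (norm_nonneg _)
      _ = _ := by ring
  -- Schur
  have hL3 : ∑ j ∈ js, ∑ j' ∈ js, ‖F j.2‖ * ‖F j'.2‖ * Real.exp (-(T * (m j - m j')) ^ 2 / 4) ≤
      ∑ j ∈ js, ‖F j.2‖ ^ 2 * ∑ j' ∈ js, Real.exp (-(T * (m j - m j')) ^ 2 / 4) := by
    refine YB_schur js (fun j => ‖F j.2‖) (fun j j' => Real.exp (-(T * (m j - m j')) ^ 2 / 4))
      (fun _ _ => (Real.exp_pos _).le) (fun j j' => ?_)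
    show Real.exp (-(T * (m j - m j')) ^ 2 / 4) = Real.exp (-(T * (m j' - m j)) ^ 2 / 4)
    congr 1
    ring
  -- counting
  have hcount : ∀ r ∈ RF N i, ∑ n ∈ Finset.Ioc N (4 * N), ∑ j' ∈ js,
      (if |m (n, r) - m j'| ≤ η then (1 : ℝ) else 0) ≤
      C₁ * D ^ 2 * N * (1 + η * (N : ℝ) ^ 2 * 4 ^ i) := by
    intro r hr
    have h1 := hCNT N i η D r.1 r.2 hN hη0 hη1 hr hDk
    refine le_trans (le_of_eq ?_) h1
    rw [Finset.card_filter]
    push_cast
    rw [Finset.sum_product, Finset.sum_product]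
    refine Finset.sum_congr rfl fun n _ => ?_
    rw [hjs, Finset.sum_product]
  have hN3 : (((Finset.Ioc N (4 * N)).card : ℕ) : ℝ) = 3 * N := by
    rw [Nat.card_Ioc, show 4 * N - N = 3 * N by omega]
    push_cast
    ring
  have hL4 : ∑ j ∈ js, ‖F j.2‖ ^ 2 * ∑ j' ∈ js, Real.exp (-(T * (m j - m j')) ^ 2 / 4) ≤
      S * (C₁ * D ^ 2 * N * (1 + η * (N : ℝ) ^ 2 * 4 ^ i) + 1) := by
    have hjc : (js.card : ℝ) = 3 * N * (RF N i).card := by
      rw [hjs, Finset.card_product]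
      push_cast
      rw [← hN3]
    calc ∑ j ∈ js, ‖F j.2‖ ^ 2 * ∑ j' ∈ js, Real.exp (-(T * (m j - m j')) ^ 2 / 4)
        ≤ ∑ j ∈ js, ‖F j.2‖ ^ 2 * (∑ j' ∈ js, (if |m j - m j'| ≤ η then (1 : ℝ) else 0) +
            js.card * e₀) := by
          refine Finset.sum_le_sum fun j _ => mul_le_mul_of_nonneg_left ?_ (sq_nonneg _)
          calc ∑ j' ∈ js, Real.exp (-(T * (m j - m j')) ^ 2 / 4)
              ≤ ∑ j' ∈ js, ((if |m j - m j'| ≤ η then (1 : ℝ) else 0) + e₀) :=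
                Finset.sum_le_sum fun j' _ => YB_gauss T δ _ hT1
            _ = _ := by rw [Finset.sum_add_distrib, Finset.sum_const, nsmul_eq_mul]
      _ = ∑ r ∈ RF N i, ‖F r‖ ^ 2 * (∑ n ∈ Finset.Ioc N (4 * N), ∑ j' ∈ js,
            (if |m (n, r) - m j'| ≤ η then (1 : ℝ) else 0) + 3 * N * (js.card * e₀)) := by
          conv_lhs => rw [hjs]
          rw [Finset.sum_product, Finset.sum_comm]
          refine Finset.sum_congr rfl fun r _ => ?_
          show ∑ n ∈ Finset.Ioc N (4 * N), ‖F r‖ ^ 2 * (_ + _) = _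
          rw [← Finset.mul_sum, Finset.sum_add_distrib, Finset.sum_const, nsmul_eq_mul, hN3]
      _ ≤ ∑ r ∈ RF N i, ‖F r‖ ^ 2 *
            (C₁ * D ^ 2 * N * (1 + η * (N : ℝ) ^ 2 * 4 ^ i) + 1) := by
          refine Finset.sum_le_sum fun r hr => mul_le_mul_of_nonneg_left ?_ (sq_nonneg _)
          refine add_le_add (hcount r hr) ?_
          have h1 := YB_card N i T hT1 hNT hiT
          have he0 : 0 < e₀ := Real.exp_pos _
          rw [hjc]
          calc 3 * (N : ℝ) * (3 * N * (RF N i).card * e₀)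
              = 9 * (N * N * (RF N i).card) * e₀ := by ring
            _ ≤ 9 * (T * T * (800 * T ^ 5)) * e₀ := by gcongr
            _ = 7200 * T ^ 7 * e₀ := by ring
            _ ≤ 1 := htail
      _ = _ := by rw [← Finset.sum_mul]
  -- the final inequality
  have hfin : S ^ 2 ≤ (64 * 10 ^ 5 * C₃ * T ^ (ε + δ) * (W.card : ℝ) * N *
      (T + (N : ℝ) ^ 2 * 4 ^ i)) * S := by
    have hW0 : (0 : ℝ) ≤ W.card := Nat.cast_nonneg _
    have hTδ : 1 ≤ T ^ δ := Real.one_le_rpow hT1 hδ.le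
    have hTε : 1 ≤ T ^ ε := Real.one_le_rpow hT1 hε.le
    have hD2 : C₁ * D ^ 2 ≤ (C₃ - 1) * T ^ ε := by
      have h1 : D ^ 2 = (C₂ * (3200 : ℝ) ^ (ε / 16)) ^ 2 * T ^ (ε / 2) := by
        rw [hD, mul_pow]
        congr 1
        rw [← Real.rpow_natCast, ← Real.rpow_mul hT0.le]
        congr 1
        push_cast
        ring
      have h2 : T ^ (ε / 2) ≤ T ^ ε := Real.rpow_le_rpow_of_exponent_le hT1 (by linarith)
      have h3 : C₃ - 1 = C₁ * (C₂ * (3200 : ℝ) ^ (ε / 16)) ^ 2 := by rw [hC₃]; ring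
      rw [h3, h1, ← mul_assoc]
      exact mul_le_mul_of_nonneg_left h2 (by positivity)
    set Q : ℝ := (N : ℝ) ^ 2 * 4 ^ i with hQ
    have hQ0 : 0 ≤ Q := by positivity
    have hTη : T * η = T ^ δ := by
      rw [hη, Real.rpow_sub_one hT0.ne']
      field_simp
    have h5 : T * (C₁ * D ^ 2 * N * (1 + η * (N : ℝ) ^ 2 * 4 ^ i) + 1) ≤
        C₃ * T ^ ε * T ^ δ * N * (T + Q) := by
      have h6 : T * (1 + η * Q) ≤ T ^ δ * (T + Q) := by
        have : T * (1 + η * Q) = T + (T * η) * Q := by ring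
        rw [this, hTη]
        nlinarith
      have h7 : T ≤ T ^ ε * (N * (T ^ δ * (T + Q))) := by
        have h8 : T ≤ T ^ δ * (T + Q) := by nlinarith
        have h9 : T ^ δ * (T + Q) ≤ N * (T ^ δ * (T + Q)) := by nlinarith
        have h10 : 0 ≤ N * (T ^ δ * (T + Q)) := by linarith
        nlinarith
      calc T * (C₁ * D ^ 2 * N * (1 + η * (N : ℝ) ^ 2 * 4 ^ i) + 1)
          = C₁ * D ^ 2 * (N * (T * (1 + η * Q))) + T := by rw [hQ]; ring
        _ ≤ (C₃ - 1) * T ^ ε * (N * (T ^ δ * (T + Q))) + T ^ ε * (N * (T ^ δ * (T + Q))) := by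
            refine add_le_add ?_ h7
            refine mul_le_mul hD2 (mul_le_mul_of_nonneg_left h6 hN0.le) (by positivity) ?_
            have : 0 ≤ C₃ - 1 := by rw [hC₃]; have : (0 : ℝ) ≤ C₁ * (C₂ * (3200 : ℝ) ^ (ε / 16)) ^ 2 := by positivity
                                    linarith
            positivity
        _ = C₃ * T ^ ε * T ^ δ * N * (T + Q) := by ring
    calc S ^ 2 ≤ (W.card : ℝ) * ∑ t ∈ W, ‖PP N b t * G t‖ ^ 2 := hS2
      _ ≤ (W.card : ℝ) * (64 * 10 ^ 5 * T * (S * (C₁ * D ^ 2 * N *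
            (1 + η * (N : ℝ) ^ 2 * 4 ^ i) + 1))) := by
          refine mul_le_mul_of_nonneg_left (hL2.trans ?_) hW0
          exact mul_le_mul_of_nonneg_left (hL3.trans hL4) (by positivity)
      _ = (W.card : ℝ) * (64 * 10 ^ 5) * S * (T * (C₁ * D ^ 2 * N *
            (1 + η * (N : ℝ) ^ 2 * 4 ^ i) + 1)) := by ring
      _ ≤ (W.card : ℝ) * (64 * 10 ^ 5) * S * (C₃ * T ^ ε * T ^ δ * N * (T + Q)) :=
          mul_le_mul_of_nonneg_left h5 (by positivity)
      _ = _ := by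
          rw [Real.rpow_add hT0]
          ring
  rcases hS0.eq_or_lt with h0 | h0
  · rw [← h0]
    positivity
  · rw [sq] at hfin
    exact le_of_mul_le_mul_right hfin h0

end Pool.Agent.NF
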